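import Pool.Agent.Q119.FI.Main

set_option autoImplicit false

namespace Pool.Agent.Results.MP_2e96e9_co.AllFailing

/-- `[n]^{(p)}`: the `p`-element subsets of `Fin n`. -/
abbrev Sub (n p : ℕ) : Type := {x : Finset (Fin n) // x.card = p}

/-- `f` fixes an intersection. -/
def FixesIntersection {n p : ℕ} (f : Sub n p → Sub n p) : Prop :=
  ∃ x y : Sub n p, x ≠ y ∧ ((f x).1 ∩ (f y).1).card = (x.1 ∩ y.1).card

/-- The fixed intersection property of `[n]^{(p)}`: every nonconstant map fixes an
intersection. -/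
def FIP (n p : ℕ) : Prop :=
  ∀ f : Sub n p → Sub n p, (¬ ∃ c, ∀ x, f x = c) → FixesIntersection f

/-- An orientation of the `r`-uniform hypergraph `G` lists the vertices of every edge in
positions `0, …, r - 1`. -/
abbrev Orientation {V : Type} (G : Finset (Finset V)) (r : ℕ) : Type :=
  (e : {e : Finset V // e ∈ G}) → (Fin r ≃ {v : V // v ∈ e.1})

/-- The `I`-degree of `A`: the number of edges whose vertices in the positions `I` form the
set `A`. -/
def deg {V : Type} [DecidableEq V] {G : Finset (Finset V)} {r : ℕ} (D : Orientation G r)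
    (I : Finset (Fin r)) (A : Finset V) : ℕ :=
  (Finset.univ.filter (fun e : {e : Finset V // e ∈ G} =>
    I.image (fun i => (D e i : V)) = A)).card

/-- Main result: for all `1 ≤ p ≤ r` for which `[r]^{(p)}` fails the fixed intersection property
there is a finite `r`-uniform hypergraph `G` satisfying (a), with all `C(r, p)` classes nonempty,
and (b). -/
theorem result (p r : ℕ) (hp : 1 ≤ p) (hpr : p ≤ r) (h : ¬ FIP r p) :
    ∃ (V : Type) (_ : Fintype V) (_ : DecidableEq V) (G : Finset (Finset V)),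
      (∀ e ∈ G, e.card = r) ∧
      (∃ W : {A : Finset V // A.card = p} → Fin (r.choose p), Function.Surjective W ∧
        ∀ e ∈ G, ∀ i, ¬ ∀ A : {A : Finset V // A.card = p}, A.1 ⊆ e → W A = i) ∧
      ∀ D : Orientation G r, ∃ A : Finset V, A.card = p ∧
        ∀ I : Finset (Fin r), I.card = p → 0 < deg D I A := by
  classical
  unfold FIP at h
  push Not at h
  obtain ⟨f, hnc, hfix⟩ := h
  have hne : Nonempty (Sub r p) := by
    obtain ⟨s, _, hs⟩ := Finset.exists_subset_card_eq
      (s := (Finset.univ : Finset (Fin r))) (n := p) (by simpa using hpr)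
    exact ⟨⟨s, hs⟩⟩
  obtain ⟨x0⟩ := hne
  have hnc' : ∃ x y, f x ≠ f y := by
    obtain ⟨x, hx⟩ := hnc (f x0)
    exact ⟨x, x0, hx⟩
  have hfix' : ∀ x y, x ≠ y → ((f x).1 ∩ (f y).1).card ≠ (x.1 ∩ y.1).card := by
    intro x y hxy heq
    exact hfix ⟨x, y, hxy, heq⟩
  obtain ⟨V, hV1, hV2, G, W, h1, h2, h3, h4⟩ := Q119.FI.main p r hp f hnc' hfix'
  have hcard : Fintype.card (Sub r p) = r.choose p := by
    rw [Fintype.card_finset_len, Fintype.card_fin]
  let E : Sub r p ≃ Fin (r.choose p) := Fintype.equivFinOfCardEq hcard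
  refine ⟨V, hV1, hV2, G, h1, ⟨fun A => E (W A.1), ?_, ?_⟩, ?_⟩
  · intro i
    obtain ⟨A, hA, hWA⟩ := h3 (E.symm i)
    exact ⟨⟨A, hA⟩, by simp [hWA]⟩
  · intro e he i hcon
    apply h2 e he
    refine ⟨E.symm i, ?_⟩
    intro A hAe hAp
    have := hcon ⟨A, hAp⟩ hAe
    rw [← this]
    simp
  · intro D
    obtain ⟨A0, hA0, _⟩ := h3 x0
    have hA0ne : A0.Nonempty := by
      rw [← Finset.card_pos, hA0]
      exact hp
    obtain ⟨v0, _⟩ := hA0ne
    obtain ⟨A, hA, hI⟩ := h4
      (fun e i => if he : e ∈ G then (D ⟨e, he⟩ i : V) else v0) (by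
        intro e he
        constructor
        · intro i j hij
          simp only [dif_pos he] at hij
          exact (D ⟨e, he⟩).injective (Subtype.ext hij)
        · ext v
          simp only [dif_pos he, Finset.mem_image, Finset.mem_univ, true_and]
          constructor
          · rintro ⟨i, rfl⟩
            exact (D ⟨e, he⟩ i).2
          · intro hv
            exact ⟨(D ⟨e, he⟩).symm ⟨v, hv⟩, by simp⟩)
    refine ⟨A, hA, ?_⟩
    intro I hIp
    obtain ⟨e, he, heA⟩ := hI I hIp
    unfold deg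
    rw [Finset.card_pos]
    refine ⟨⟨e, he⟩, ?_⟩
    rw [Finset.mem_filter]
    refine ⟨Finset.mem_univ _, ?_⟩
    rw [← heA]
    apply Finset.image_congr
    intro i _
    simp only [dif_pos he]

end Pool.Agent.Results.MP_2e96e9_co.AllFailing
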